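import Mathlib

set_option autoImplicit false
universe u

open MeasureTheory Filter Set
open scoped ENNReal

namespace Pool.Agent.Lib.MP_375da3_co

/-- The ambient distributive lattice: germs of predicates along the a.e. filter of Lebesgue measure. -/
abbrev G : Type := Germ (ae (volume : Measure ℝ)) Prop

/-- The Lebesgue measure algebra as a sublattice of `G`. -/
def M : Sublattice G where
  carrier := {g | ∃ s : Set ℝ, MeasurableSet s ∧ g = (((fun x => x ∈ s) : ℝ → Prop) : G)}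
  supClosed' := by
    rintro _ ⟨s, hs, rfl⟩ _ ⟨t, ht, rfl⟩
    exact ⟨s ∪ t, hs.union ht, rfl⟩
  infClosed' := by
    rintro _ ⟨s, hs, rfl⟩ _ ⟨t, ht, rfl⟩
    exact ⟨s ∩ t, hs.inter ht, rfl⟩

/-- The class of a measurable set. -/
noncomputable def cl (s : Set ℝ) (hs : MeasurableSet s) : M := ⟨(((fun x => x ∈ s) : ℝ → Prop) : G), s, hs, rfl⟩

lemma exists_cl (a : M) : ∃ s, ∃ hs : MeasurableSet s, a = cl s hs := by
  obtain ⟨a, s, hs, rfl⟩ := a
  exact ⟨s, hs, rfl⟩

lemma cl_le_iff {s t : Set ℝ} (hs : MeasurableSet s) (ht : MeasurableSet t) :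
    cl s hs ≤ cl t ht ↔ volume (s \ t) = 0 := by
  have h1 : cl s hs ≤ cl t ht ↔ s ≤ᵐ[volume] t := Iff.rfl
  rw [h1, ae_le_set]

lemma cl_sup {s t : Set ℝ} (hs : MeasurableSet s) (ht : MeasurableSet t) :
    cl s hs ⊔ cl t ht = cl (s ∪ t) (hs.union ht) := rfl

lemma cl_inf {s t : Set ℝ} (hs : MeasurableSet s) (ht : MeasurableSet t) :
    cl s hs ⊓ cl t ht = cl (s ∩ t) (hs.inter ht) := rfl

/-- The index set: finite sets of members of a countable base. -/
abbrev J : Type := Finset (TopologicalSpace.countableBasis ℝ)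

/-- Union of a finite family of basic open sets. -/
def U (F : J) : Set ℝ := ⋃ b ∈ F, (b : Set ℝ)

/-- The map measuring the intersection with `U F`. -/
noncomputable def meas (F : J) (a : M) : ℝ≥0∞ :=
  Germ.liftOn (a : G) (fun p => volume ({x | p x} ∩ U F)) (by
    intro p q h
    apply measure_congr
    have h' : {x | p x} =ᵐ[volume] {x | q x} := h
    exact h'.inter (ae_eq_refl _))

lemma meas_cl (F : J) {s : Set ℝ} (hs : MeasurableSet s) :
    meas F (cl s hs) = volume (s ∩ U F) := rfl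

lemma open_le {s t : Set ℝ} (h : ∀ F : J, volume (s ∩ U F) ≤ volume (t ∩ U F)) {O : Set ℝ}
    (hO : IsOpen O) : volume (s ∩ O) ≤ volume (t ∩ O) := by
  classical
  -- index by finite subsets of the basic sets inside `O`
  let I : Type := Finset {b : TopologicalSpace.countableBasis ℝ // (b : Set ℝ) ⊆ O}
  let F : I → J := fun K => K.map (Function.Embedding.subtype _)
  have hcov : O = ⋃ K : I, U (F K) := by
    apply Subset.antisymm
    · intro x hx
      obtain ⟨b, hb, hxb, hbO⟩ :=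
        (TopologicalSpace.isBasis_countableBasis ℝ).exists_subset_of_mem_open hx hO
      refine mem_iUnion.2 ⟨{⟨⟨b, hb⟩, hbO⟩}, ?_⟩
      refine mem_iUnion.2 ⟨⟨b, hb⟩, mem_iUnion.2 ⟨?_, hxb⟩⟩
      exact Finset.mem_map.2 ⟨⟨⟨b, hb⟩, hbO⟩, Finset.mem_singleton_self _, rfl⟩
    · intro x hx
      obtain ⟨K, hK⟩ := mem_iUnion.1 hx
      simp only [U, F, mem_iUnion] at hK
      obtain ⟨b, hb, hxb⟩ := hK
      rw [Finset.mem_map] at hb
      obtain ⟨c, hc, rfl⟩ := hb
      exact c.2 hxb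
  have hdir : Directed (· ⊆ ·) (fun K : I => s ∩ U (F K)) := by
    intro K L
    refine ⟨K ∪ L, ?_, ?_⟩
    · apply inter_subset_inter_right
      intro x hx
      simp only [U, F, mem_iUnion, Finset.mem_map] at hx ⊢
      obtain ⟨b, ⟨c, hc, rfl⟩, hx⟩ := hx
      exact ⟨_, ⟨c, Finset.mem_union_left _ hc, rfl⟩, hx⟩
    · apply inter_subset_inter_right
      intro x hx
      simp only [U, F, mem_iUnion, Finset.mem_map] at hx ⊢
      obtain ⟨b, ⟨c, hc, rfl⟩, hx⟩ := hx
      exact ⟨_, ⟨c, Finset.mem_union_right _ hc, rfl⟩, hx⟩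
  have : Countable I := by infer_instance
  have h1 : volume (s ∩ O) = ⨆ K : I, volume (s ∩ U (F K)) := by
    conv_lhs => rw [hcov, inter_iUnion]
    exact hdir.measure_iUnion
  rw [h1]
  refine iSup_le fun K => (h (F K)).trans ?_
  apply measure_mono
  apply inter_subset_inter_right
  intro x hx
  rw [hcov]
  exact mem_iUnion.2 ⟨K, hx⟩

lemma null_of_le {s t : Set ℝ} (hs : MeasurableSet s) (ht : MeasurableSet t)
    (h : ∀ F : J, volume (s ∩ U F) ≤ volume (t ∩ U F)) : volume (s \ t) = 0 := by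
  by_contra hne
  have hpos : 0 < volume (s \ t) := pos_iff_ne_zero.2 hne
  have h0 : (volume.restrict t) (s \ t) = 0 := by
    rw [Measure.restrict_apply (hs.diff ht)]
    have : (s \ t) ∩ t = ∅ := by ext x; simp
    rw [this, measure_empty]
  have h1 : (volume.restrict t) (s \ t) < volume (s \ t) := by rw [h0]; exact hpos
  obtain ⟨O, hsub, hO, hlt⟩ := Set.exists_isOpen_lt_of_lt (s \ t) _ h1
  have h2 : (volume.restrict t) O = volume (t ∩ O) := by
    rw [Measure.restrict_apply hO.measurableSet, inter_comm]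
  have h3 : volume (s \ t) ≤ volume (s ∩ O) :=
    measure_mono (fun x hx => ⟨hx.1, hsub hx⟩)
  have h4 := open_le h hO
  rw [h2] at hlt
  exact absurd (lt_of_le_of_lt (h3.trans h4) hlt) (lt_irrefl _)

lemma meas_le_iff (a b : M) : (∀ F : J, meas F a ≤ meas F b) ↔ a ≤ b := by
  obtain ⟨s, hs, rfl⟩ := exists_cl a
  obtain ⟨t, ht, rfl⟩ := exists_cl b
  constructor
  · intro h
    rw [cl_le_iff]
    exact null_of_le hs ht h
  · intro h F
    have h' : s ≤ᵐ[volume] t := h
    rw [meas_cl, meas_cl]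
    apply measure_mono_ae
    exact h'.inter (EventuallyLE.refl _ _)


section NoEmb

variable {D : Type u} [LinearOrder D]

lemma exists_piece (f : M → D) (hsup : ∀ a b, f (a ⊔ b) = f a ⊔ f b) (k : ℕ) (j : ℕ) :
    ∃ i : ℕ, i ≤ j ∧ f (cl (Ico (0 : ℝ) (((j : ℝ) + 1) / (k + 1))) measurableSet_Ico) =
      f (cl (Ico ((i : ℝ) / (k + 1)) (((i : ℝ) + 1) / (k + 1))) measurableSet_Ico) := by
  induction j with
  | zero =>
    refine ⟨0, le_rfl, ?_⟩
    simp
  | succ j ih =>
    obtain ⟨i, hij, hi⟩ := ih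
    have hk : (0 : ℝ) < (k : ℝ) + 1 := by positivity
    have hunion : Ico (0 : ℝ) ((((j + 1 : ℕ) : ℝ) + 1) / (k + 1)) =
        Ico (0 : ℝ) (((j : ℝ) + 1) / (k + 1)) ∪
          Ico ((((j + 1 : ℕ) : ℝ)) / (k + 1)) ((((j + 1 : ℕ) : ℝ) + 1) / (k + 1)) := by
      push_cast
      rw [Ico_union_Ico_eq_Ico]
      · positivity
      · gcongr
        linarith
    have h1 : cl (Ico (0 : ℝ) ((((j + 1 : ℕ) : ℝ) + 1) / (k + 1))) measurableSet_Ico =
        cl (Ico (0 : ℝ) (((j : ℝ) + 1) / (k + 1))) measurableSet_Ico ⊔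
          cl (Ico ((((j + 1 : ℕ) : ℝ)) / (k + 1)) ((((j + 1 : ℕ) : ℝ) + 1) / (k + 1)))
            measurableSet_Ico := by
      rw [cl_sup]
      congr 1
    rw [h1, hsup]
    rcases le_total (f (cl (Ico (0 : ℝ) (((j : ℝ) + 1) / (k + 1))) measurableSet_Ico))
      (f (cl (Ico ((((j + 1 : ℕ) : ℝ)) / (k + 1)) ((((j + 1 : ℕ) : ℝ) + 1) / (k + 1)))
            measurableSet_Ico)) with h | h
    · exact ⟨j + 1, le_rfl, by rw [sup_eq_right.2 h]⟩
    · exact ⟨i, hij.trans (Nat.le_succ _), by rw [sup_eq_left.2 h, hi]⟩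

lemma exists_small (f : M → D) (hsup : ∀ a b, f (a ⊔ b) = f a ⊔ f b) {ε : ℝ≥0∞} (hε : 0 < ε) :
    ∃ (s : Set ℝ) (hs : MeasurableSet s), volume s ≤ ε ∧
      f (cl s hs) = f (cl (Ico (0 : ℝ) 1) measurableSet_Ico) := by
  obtain ⟨k, hk⟩ : ∃ k : ℕ, ENNReal.ofReal (1 / ((k : ℝ) + 1)) < ε := by
    have h1 : Tendsto (fun k : ℕ => ENNReal.ofReal (1 / ((k : ℝ) + 1))) atTop (nhds 0) := by
      have := ENNReal.tendsto_ofReal (tendsto_one_div_add_atTop_nhds_zero_nat (𝕜 := ℝ))
      simpa using this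
    exact (h1.eventually (gt_mem_nhds hε)).exists
  obtain ⟨i, -, hi⟩ := exists_piece f hsup k k
  have hk1 : ((k : ℝ) + 1) ≠ 0 := by positivity
  refine ⟨_, measurableSet_Ico, ?_, hi.symm.trans ?_⟩
  · rw [Real.volume_Ico]
    refine le_of_eq_of_le ?_ hk.le
    congr 1
    field_simp
    ring
  · congr 2
    rw [div_self hk1]

end NoEmb

lemma no_emb {ι : Type u} [Countable ι] {D : ι → Type u} [∀ i, LinearOrder (D i)]
    (f : ∀ i, M → D i) (hsup : ∀ i a b, f i (a ⊔ b) = f i a ⊔ f i b)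
    (hinf : ∀ i a b, f i (a ⊓ b) = f i a ⊓ f i b) :
    ∃ a b : M, a ≠ b ∧ ∀ i, f i a = f i b := by
  obtain ⟨ε, hε, hsum⟩ := ENNReal.exists_pos_sum_of_countable' (ε := 1) one_ne_zero ι
  choose s hs hvol heq using fun i => exists_small (f i) (hsup i) (hε i)
  let b : Set ℝ := Ico (0 : ℝ) 1 \ ⋃ i, s i
  have hb : MeasurableSet b := measurableSet_Ico.diff (MeasurableSet.iUnion hs)
  refine ⟨cl b hb, cl ∅ MeasurableSet.empty, ?_, ?_⟩
  · intro h
    have h1 : volume (b \ ∅) = 0 := (cl_le_iff hb MeasurableSet.empty).1 h.le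
    rw [sdiff_empty] at h1
    have h2 : volume (⋃ i, s i) < 1 := by
      refine lt_of_le_of_lt (measure_iUnion_le s) (lt_of_le_of_lt ?_ hsum)
      exact ENNReal.tsum_le_tsum hvol
    have h3 : volume (Ico (0 : ℝ) 1) ≤ volume b + volume (⋃ i, s i) := by
      refine (measure_mono ?_).trans (measure_union_le b (⋃ i, s i))
      intro x hx
      by_cases hxs : x ∈ ⋃ i, s i
      · exact Or.inr hxs
      · exact Or.inl ⟨hx, hxs⟩
    rw [h1, zero_add, Real.volume_Ico] at h3
    norm_num at h3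
    exact absurd (lt_of_le_of_lt h3 h2) (lt_irrefl _)
  · intro i
    have h1 : cl b hb ⊓ cl (s i) (hs i) = cl ∅ MeasurableSet.empty := by
      rw [cl_inf]
      congr 1
      ext x
      constructor
      · rintro ⟨hx, hxs⟩
        exact hx.2 (mem_iUnion.2 ⟨i, hxs⟩)
      · intro hx
        exact hx.elim
    have h2 : cl b hb ⊓ cl (Ico (0 : ℝ) 1) measurableSet_Ico = cl b hb := by
      rw [cl_inf]
      congr 1
      exact inter_eq_left.2 sdiff_subset
    calc f i (cl b hb) = f i (cl b hb ⊓ cl (Ico (0 : ℝ) 1) measurableSet_Ico) := by rw [h2]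
      _ = f i (cl b hb) ⊓ f i (cl (Ico (0 : ℝ) 1) measurableSet_Ico) := hinf _ _ _
      _ = f i (cl b hb) ⊓ f i (cl (s i) (hs i)) := by rw [heq]
      _ = f i (cl b hb ⊓ cl (s i) (hs i)) := (hinf _ _ _).symm
      _ = f i (cl ∅ MeasurableSet.empty) := by rw [h1]

theorem main :
    ¬ (∀ (T : Type u) [DistribLattice T] (ι : Type u) (C : ι → Type u)
      [∀ i, LinearOrder (C i)],
      Nonempty (T ↪o ((i : ι) → C i)) →
        ∃ (D : ι → Type u) (_ : ∀ i, LinearOrder (D i)),
          ∃ f : LatticeHom T ((i : ι) → D i), Function.Injective f) := by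
  intro H
  obtain ⟨D, inst, f, hf⟩ := H (ULift.{u} M) (ULift.{u} J) (fun _ => ULift.{u} ℝ≥0∞)
    ⟨OrderEmbedding.ofMapLEIff (fun a F => ULift.up (meas F.down a.down)) (by
      intro a b
      constructor
      · intro h
        exact (meas_le_iff a.down b.down).1 (fun F => h (ULift.up F))
      · intro h F
        exact (meas_le_iff a.down b.down).2 h F.down)⟩
  have : Countable (ULift.{u} J) := by infer_instance
  obtain ⟨a, b, hab, h⟩ := no_emb (D := D) (fun i a => f (ULift.up a) i)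
    (fun i a b => by
      have := congrFun (f.map_sup' (ULift.up a) (ULift.up b)) i
      exact this)
    (fun i a b => by
      have := congrFun (f.map_inf' (ULift.up a) (ULift.up b)) i
      exact this)
  apply hab
  have h1 : f (ULift.up a) = f (ULift.up b) := funext h
  exact ULift.up_injective (hf h1)

end Pool.Agent.Lib.MP_375da3_co
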